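import Pool.Agent.R688.ST.Main

/-!
# Extension closure of stably I-annihilated modules in C(R) (MP_4104ad_al, Q1)

For every commutative noetherian ring `R` and every ideal `I`, `ext_R(C_I(R)) = C_{V(I)}(R)`.
-/

set_option autoImplicit false

open CategoryTheory R688.ST

universe u

namespace Pool.Agent.Results.MP_4104ad_al.ExtClosureEquality

/-- `ext_R(C_I(R)) = C_{V(I)}(R)` for every commutative noetherian ring `R` and ideal `I`. -/
theorem result : ∀ (R : Type u) [CommRing R] [IsNoetherianRing R] (I : Ideal R)
    (M : ModuleCat.{u} R), ExtClosure R (IsCI R I) M ↔ IsCVI R I M := by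
  intro R _ _ I M
  exact ext_eq I M

end Pool.Agent.Results.MP_4104ad_al.ExtClosureEquality
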